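import Mathlib

set_option autoImplicit false

/-!
# Hermite weights

If the numbers `m i` add up to more than `n`, the coefficient of degree `n` of a polynomial of degree
at most `n` is a linear combination of its first `m i` Taylor coefficients at the points `t i`.
-/

open Polynomial Finset

namespace Pool.Agent.R462.HP

theorem eq_zero_of_taylor {n N : ℕ} (t : Fin N → ℝ) (ht : Function.Injective t) (m : Fin N → ℕ)
    (hm : n < ∑ i, m i) (p : ℝ[X]) (hp : p.degree < ((n + 1 : ℕ) : WithBot ℕ))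
    (h : ∀ i, ∀ j < m i, (taylor (t i) p).coeff j = 0) : p = 0 := by
  by_contra hp0
  have hdvd : ∀ i ∈ (univ : Finset (Fin N)), (X - C (t i)) ^ m i ∣ p := by
    intro i _
    rw [X_sub_C_pow_dvd_iff, X_pow_dvd_iff]
    intro j hj
    have := h i j hj
    rwa [taylor_apply] at this
  have hcop : (↑(univ : Finset (Fin N)) : Set (Fin N)).Pairwise
      (Function.onFun IsCoprime fun i => (X - C (t i)) ^ m i) := by
    intro i _ j _ hij
    exact (pairwise_coprime_X_sub_C ht hij).pow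
  have hprod : ∏ i, (X - C (t i)) ^ m i ∣ p := Finset.prod_dvd_of_coprime hcop hdvd
  have hdeg : (∏ i, (X - C (t i)) ^ m i).natDegree = ∑ i, m i := by
    rw [natDegree_prod_of_monic _ _ fun i _ => (monic_X_sub_C _).pow _]
    simp
  have h1 := natDegree_le_of_dvd hprod hp0
  rw [hdeg] at h1
  have h2 : p.natDegree < n + 1 := (natDegree_lt_iff_degree_lt hp0).2 hp
  omega

theorem hermite {n N : ℕ} (t : Fin N → ℝ) (ht : Function.Injective t) (m : Fin N → ℕ)
    (hm : n < ∑ i, m i) :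
    ∃ w : ((i : Fin N) × Fin (m i)) → ℝ, ∀ p : ℝ[X], p.natDegree ≤ n →
      p.coeff n = ∑ x : (i : Fin N) × Fin (m i), w x * (taylor (t x.1) p).coeff x.2 := by
  classical
  let φ : degreeLT ℝ (n + 1) →ₗ[ℝ] (((i : Fin N) × Fin (m i)) → ℝ) :=
    LinearMap.pi fun x => (lcoeff ℝ (x.2 : ℕ)) ∘ₗ ((taylorAlgHom (t x.1)).toLinearMap) ∘ₗ
      (degreeLT ℝ (n + 1)).subtype
  have hφ : ∀ (q : degreeLT ℝ (n + 1)) x, φ q x = (taylor (t x.1) (q : ℝ[X])).coeff x.2 :=
    fun q x => rfl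
  have hinj : LinearMap.ker φ = ⊥ := by
    rw [LinearMap.ker_eq_bot']
    intro q hq
    have h1 := eq_zero_of_taylor t ht m hm (q : ℝ[X]) (mem_degreeLT.1 q.2) (fun i j hj => by
      have h2 := congrFun hq ⟨i, ⟨j, hj⟩⟩
      rw [hφ] at h2
      exact h2)
    exact Subtype.ext h1
  obtain ⟨ψ, hψ⟩ := LinearMap.exists_leftInverse_of_injective φ hinj
  let L : (((i : Fin N) × Fin (m i)) → ℝ) →ₗ[ℝ] ℝ :=
    (lcoeff ℝ n) ∘ₗ (degreeLT ℝ (n + 1)).subtype ∘ₗ ψ
  refine ⟨fun x => L (fun j => if x = j then 1 else 0), fun p hp => ?_⟩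
  have hmem : p ∈ degreeLT ℝ (n + 1) := by
    rw [mem_degreeLT]
    exact degree_le_natDegree.trans_lt (by exact_mod_cast Nat.lt_succ_of_le hp)
  have h3 : L (φ ⟨p, hmem⟩) = p.coeff n := by
    have h4 : ψ (φ ⟨p, hmem⟩) = ⟨p, hmem⟩ := by
      have := LinearMap.congr_fun hψ ⟨p, hmem⟩
      simpa using this
    change ((ψ (φ ⟨p, hmem⟩) : degreeLT ℝ (n + 1)) : ℝ[X]).coeff n = _
    rw [h4]
  rw [← h3, LinearMap.pi_apply_eq_sum_univ L (φ ⟨p, hmem⟩)]
  refine Finset.sum_congr rfl fun x _ => ?_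
  rw [smul_eq_mul, mul_comm, hφ]

end Pool.Agent.R462.HP
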