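import Pool.Agent.R462.HP.Minor
import Pool.Agent.R462.HP.Herm

set_option autoImplicit false

/-!
# Dimensions of the slices, with multiplicities
-/

open MeasureTheory Set Finset Topology Filter

namespace Pool.Agent.R462.HP

open Pool.Agent.W769.Kak

variable {d : ℕ}

/-- the limit map: the coordinates in `S` of the slice map, the others are kept -/
def lim (a : (Fin d → ℝ) → Fin d → ℝ) (s : ℝ) (S : Finset (Fin d)) (v : Fin d → ℝ) : Fin d → ℝ :=
  fun i => if i ∈ S then a v i + s * v i else v i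

theorem continuous_lim {a : (Fin d → ℝ) → Fin d → ℝ} (ha : Continuous a) (s : ℝ)
    (S : Finset (Fin d)) : Continuous (lim a s S) := by
  refine continuous_pi fun i => ?_
  unfold lim
  split_ifs
  · fun_prop
  · fun_prop

theorem key_S (hd : 0 < d) {a : (Fin d → ℝ) → Fin d → ℝ} (ha : Continuous a)
    (v0 : Fin d → ℝ) {R : ℝ} (hR : 0 < R)
    (hS : ∑' k, ∫⁻ v in Metric.closedBall v0 (R / 2),
      ENNReal.ofReal ((sc (R / 2) k ^ (2 * d - 1))⁻¹) *
      ∫⁻ y in Metric.closedBall (0 : Fin d → ℝ) (sc (R / 2) k), ‖a (v - y) - a v‖ₑ ^ d ≠ ⊤)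
    {κ : (Fin d → ℝ) → ℝ} {M : ℝ} (hκ : IsKernel κ M)
    {η : (Fin d → ℝ) → ℝ} (hηs : ContDiff ℝ 1 η) (hηc : HasCompactSupport η)
    (hηt : tsupport η = Metric.closedBall v0 (R / 2)) (s : ℝ) (S : Finset (Fin d))
    (hs : volume (lim a s S '' Metric.closedBall v0 R) = 0) :
    Tendsto (fun k => ∫ v, η v * (GM (fmS κ a (sc (R / 2) k) s S) v).det) atTop (𝓝 0) := by
  have hM0 : 0 ≤ M := (abs_nonneg _).trans (hκ.bound 0)
  obtain ⟨N, hN⟩ : ∃ N : ℝ, ∀ v i, |pd η i v| ≤ N := by
    have h1 : ∀ j, ∃ N : ℝ, ∀ y, |pd η j y| ≤ N := by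
      intro j
      have h2 : HasCompactSupport (pd η j) := hηc.fderiv_apply ℝ _
      obtain ⟨M2, hM2⟩ := h2.exists_bound_of_continuous (continuous_pd hηs j)
      exact ⟨M2, hM2⟩
    choose N hN using h1
    have hN' : ∀ j, 0 ≤ N j := fun j => (abs_nonneg _).trans (hN j 0)
    refine ⟨∑ j, N j, fun v i => (hN i v).trans ?_⟩
    exact Finset.single_le_sum (fun j _ => hN' j) (Finset.mem_univ i)
  have hN0 : 0 ≤ N := (abs_nonneg _).trans (hN 0 ⟨0, hd⟩)
  set ρ0 := R / 2 with hρ0
  have hρ0p : 0 < ρ0 := by positivity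
  set B : ℝ := M * (2 * 2 ^ d + 1) + |s| + 1 with hB
  have hB0 : 0 ≤ B := by positivity
  have hB1 : 1 ≤ B := by
    have : 0 ≤ M * (2 * 2 ^ d + 1) := by positivity
    have := abs_nonneg s
    linarith
  have hBs : |s| ≤ B := by
    have : 0 ≤ M * (2 * 2 ^ d + 1) := by positivity
    linarith
  have h2d : (1 : ℝ) ≤ 2 ^ d := one_le_pow₀ (by norm_num)
  set D : ℕ → ENNReal := fun k => ENNReal.ofReal (d * (d.factorial * N)) *
    (ENNReal.ofReal ((2 * B) ^ d) * ∫⁻ v in tsupport η,
      ENNReal.ofReal ((sc ρ0 k ^ (d - 1))⁻¹ * (osc a (sc ρ0 k) v ^ d + sc ρ0 k ^ d))) with hD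
  refine tendsto_T_one (F := lim a s S) (D := D) hηs hηc
    (fun k i => contDiff_fmS hκ (sc_pos hρ0p k) ha s S i) (continuous_lim ha s S) ?_ ?_ ?_ ?_
  · -- uniform convergence
    intro ε hε
    obtain ⟨δ, hδ, hδ2⟩ := osc_small ha v0 R (ε := ε / (M + 1)) (by positivity)
    have h1 : Tendsto (fun k => sc ρ0 k) atTop (𝓝 0) := by
      unfold sc
      have := (tendsto_pow_atTop_nhds_zero_of_lt_one (r := (1 / 2 : ℝ)) (by norm_num)
        (by norm_num)).const_mul ρ0
      simpa using this
    filter_upwards [(tendsto_order.1 h1).2 δ hδ] with k hk v hv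
    rw [hηt] at hv
    have h2 := hδ2 (sc ρ0 k) (sc_pos hρ0p k) hk.le v
      (Metric.closedBall_subset_closedBall (by linarith) hv)
    rw [dist_pi_le_iff hε.le]
    intro i
    rw [Real.dist_eq]
    unfold fmS lim
    split_ifs with hi
    · have h3 := hκ.mol_sub_le (sc_pos hρ0p k) ha i v
      have h4 : fm κ a (sc ρ0 k) s i v - (a v i + s * v i) =
          mol κ (sc ρ0 k) (fun v => a v i) v - a v i := by
        simp only [fm]; ring
      rw [h4]
      refine h3.trans ?_
      calc M * osc a (sc ρ0 k) v ≤ M * (ε / (M + 1)) := by gcongr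
        _ ≤ (M + 1) * (ε / (M + 1)) := by gcongr; linarith
        _ = ε := by field_simp
    · simp [hε.le]
  · -- summability
    rw [hD, ENNReal.tsum_mul_left, ENNReal.tsum_mul_left]
    refine ENNReal.mul_ne_top ENNReal.ofReal_ne_top
      (ENNReal.mul_ne_top ENNReal.ofReal_ne_top ?_)
    have hstep : ∀ k, ∫⁻ v in tsupport η,
        ENNReal.ofReal ((sc ρ0 k ^ (d - 1))⁻¹ * (osc a (sc ρ0 k) v ^ d + sc ρ0 k ^ d)) ≤
        ENNReal.ofReal (2 ^ (d * d)) * (∫⁻ v in tsupport η,
          ENNReal.ofReal ((sc ρ0 k ^ (2 * d - 1))⁻¹) *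
          ∫⁻ y in Metric.closedBall (0 : Fin d → ℝ) (sc ρ0 k), ‖a (v - y) - a v‖ₑ ^ d) +
          ENNReal.ofReal (sc ρ0 k) * volume (tsupport η) := by
      intro k
      calc ∫⁻ v in tsupport η,
          ENNReal.ofReal ((sc ρ0 k ^ (d - 1))⁻¹ * (osc a (sc ρ0 k) v ^ d + sc ρ0 k ^ d))
          ≤ ∫⁻ v in tsupport η, (ENNReal.ofReal (2 ^ (d * d)) *
            (ENNReal.ofReal ((sc ρ0 k ^ (2 * d - 1))⁻¹) *
            ∫⁻ y in Metric.closedBall (0 : Fin d → ℝ) (sc ρ0 k), ‖a (v - y) - a v‖ₑ ^ d) +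
            ENNReal.ofReal (sc ρ0 k)) :=
            lintegral_mono fun v => pieceA ha hd (sc_pos hρ0p k) v
        _ = _ := by
            rw [lintegral_add_right _ measurable_const,
              lintegral_const_mul' _ _ ENNReal.ofReal_ne_top, setLIntegral_const]
    refine ne_top_of_le_ne_top ?_ (ENNReal.tsum_le_tsum hstep)
    rw [ENNReal.tsum_add, ENNReal.tsum_mul_left, ENNReal.tsum_mul_right]
    refine ENNReal.add_ne_top.2 ⟨?_, ?_⟩
    · refine ENNReal.mul_ne_top ENNReal.ofReal_ne_top ?_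
      rw [hηt]
      exact hS
    · refine ENNReal.mul_ne_top ?_ hηc.measure_lt_top.ne
      apply Summable.tsum_ofReal_ne_top
      unfold sc
      exact (summable_geometric_of_lt_one (by norm_num) (by norm_num)).mul_left ρ0
  · -- one step
    intro k g hg hg1
    have hρk := sc_pos hρ0p k
    have hρk' := sc_pos hρ0p (k + 1)
    have ho : ∀ v, 0 ≤ osc a (sc ρ0 k) v := fun v => osc_nonneg a hρk v
    have hoh : ∀ v, osc a (sc ρ0 (k + 1)) v ≤ 2 ^ d * osc a (sc ρ0 k) v := by
      intro v; rw [sc_succ]; exact osc_half_le ha hρk v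
    have hcoord : ∀ v (i j : Fin d), |pd (fun v : Fin d → ℝ => v i) j v| ≤
        B * ((sc ρ0 k)⁻¹ * osc a (sc ρ0 k) v + 1) := by
      intro v i j
      rw [pd_coord]
      have h1 : |(if i = j then 1 else 0 : ℝ)| ≤ 1 := by split_ifs <;> simp
      have h2 : 0 ≤ (sc ρ0 k)⁻¹ * osc a (sc ρ0 k) v := by have := ho v; positivity
      nlinarith
    have h1 := T_sub_le (f0 := fmS κ a (sc ρ0 k) s S) (f1 := fmS κ a (sc ρ0 (k + 1)) s S)
      hηs hηc hg hg1 (fun i => contDiff_fmS hκ hρk ha s S i)
      (fun i => contDiff_fmS hκ hρk' ha s S i) hN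
      (fun v => B * osc a (sc ρ0 k) v)
      (fun v => B * ((sc ρ0 k)⁻¹ * osc a (sc ρ0 k) v + 1)) ?_ ?_ ?_
    · refine h1.trans ?_
      rw [hD]
      simp only
      gcongr
      rw [← lintegral_const_mul' _ _ ENNReal.ofReal_ne_top]
      refine lintegral_mono fun v => ?_
      rw [← ENNReal.ofReal_mul (by positivity)]
      apply ENNReal.ofReal_le_ofReal
      exact scale_ineq (ho v) hρk hB0 hd
    · intro v _ j
      unfold fmS
      split_ifs with hj
      · have h2 := hκ.mol_sub_le hρk ha j v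
        have h3 := hκ.mol_sub_le hρk' ha j v
        have h4 : fm κ a (sc ρ0 (k + 1)) s j v - fm κ a (sc ρ0 k) s j v =
            (mol κ (sc ρ0 (k + 1)) (fun v => a v j) v - a v j) -
            (mol κ (sc ρ0 k) (fun v => a v j) v - a v j) := by
          simp only [fm]; ring
        rw [h4]
        calc |(mol κ (sc ρ0 (k + 1)) (fun v => a v j) v - a v j) -
            (mol κ (sc ρ0 k) (fun v => a v j) v - a v j)|
            ≤ |mol κ (sc ρ0 (k + 1)) (fun v => a v j) v - a v j| +
              |mol κ (sc ρ0 k) (fun v => a v j) v - a v j| := abs_sub _ _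
          _ ≤ M * (2 ^ d * osc a (sc ρ0 k) v) + M * osc a (sc ρ0 k) v := by
              gcongr
              exact h3.trans (by gcongr; exact hoh v)
          _ ≤ B * osc a (sc ρ0 k) v := by
              have : M * (2 ^ d * osc a (sc ρ0 k) v) + M * osc a (sc ρ0 k) v =
                (M * (2 ^ d + 1)) * osc a (sc ρ0 k) v := by ring
              rw [this]
              gcongr
              · exact ho v
              · rw [hB]
                have h5 : M * (2 ^ d + 1) ≤ M * (2 * 2 ^ d + 1) := by gcongr; linarith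
                have h6 := abs_nonneg s
                linarith
      · rw [sub_self, abs_zero]
        have := ho v
        positivity
    · intro v _ i j
      unfold fmS
      split_ifs with hi
      · rw [hκ.pd_fm hρk ha]
        have h2 := hκ.abs_pd_mol_le hρk ha i j v
        have h3 : |(if j = i then s else 0 : ℝ)| ≤ |s| := by split_ifs <;> simp
        have h4 : M ≤ B := by
          have : M * 1 ≤ M * (2 * 2 ^ d + 1) := by gcongr; linarith
          have h6 := abs_nonneg s
          linarith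
        calc |pd (mol κ (sc ρ0 k) (fun v => a v i)) j v + if j = i then s else 0|
            ≤ |pd (mol κ (sc ρ0 k) (fun v => a v i)) j v| + |(if j = i then s else 0 : ℝ)| :=
              abs_add_le _ _
          _ ≤ (sc ρ0 k)⁻¹ * M * osc a (sc ρ0 k) v + |s| := by gcongr
          _ ≤ (sc ρ0 k)⁻¹ * B * osc a (sc ρ0 k) v + B := by
              gcongr
              exact ho v
          _ = B * ((sc ρ0 k)⁻¹ * osc a (sc ρ0 k) v + 1) := by ring
      · exact hcoord v i j
    · intro v _ i j
      unfold fmS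
      split_ifs with hi
      · rw [hκ.pd_fm hρk' ha]
        have h2 := hκ.abs_pd_mol_le hρk' ha i j v
        have h3 : |(if j = i then s else 0 : ℝ)| ≤ |s| := by split_ifs <;> simp
        have h4 : 2 * 2 ^ d * M ≤ B := by
          have h6 := abs_nonneg s
          rw [hB]
          nlinarith
        have h5 : (sc ρ0 (k + 1))⁻¹ = 2 * (sc ρ0 k)⁻¹ := by
          rw [sc_succ, inv_div, div_eq_mul_inv]
        calc |pd (mol κ (sc ρ0 (k + 1)) (fun v => a v i)) j v + if j = i then s else 0|
            ≤ |pd (mol κ (sc ρ0 (k + 1)) (fun v => a v i)) j v| +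
              |(if j = i then s else 0 : ℝ)| := abs_add_le _ _
          _ ≤ (sc ρ0 (k + 1))⁻¹ * M * osc a (sc ρ0 (k + 1)) v + |s| := by gcongr
          _ ≤ 2 * (sc ρ0 k)⁻¹ * M * (2 ^ d * osc a (sc ρ0 k) v) + B := by
              rw [h5]
              gcongr
              exact hoh v
          _ = (2 * 2 ^ d * M) * ((sc ρ0 k)⁻¹ * osc a (sc ρ0 k) v) + B := by ring
          _ ≤ B * ((sc ρ0 k)⁻¹ * osc a (sc ρ0 k) v) + B := by
              have := ho v
              gcongr
          _ = B * ((sc ρ0 k)⁻¹ * osc a (sc ρ0 k) v + 1) := by ring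
      · exact hcoord v i j
  · refine measure_mono_null (image_mono ?_) hs
    rw [hηt]
    exact Metric.closedBall_subset_closedBall (by linarith)

/-- **The slices of positive measure**, with multiplicities. -/
theorem slices_mult (hd : 0 < d) {a : (Fin d → ℝ) → Fin d → ℝ} (ha : Continuous a)
    (v0 : Fin d → ℝ) {R : ℝ} (hR : 0 < R)
    (hS : ∑' k, ∫⁻ v in Metric.closedBall v0 (R / 2),
      ENNReal.ofReal ((sc (R / 2) k ^ (2 * d - 1))⁻¹) *
      ∫⁻ y in Metric.closedBall (0 : Fin d → ℝ) (sc (R / 2) k), ‖a (v - y) - a v‖ₑ ^ d ≠ ⊤)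
    {N : ℕ} (t : Fin N → ℝ) (ht : Function.Injective t) (m : Fin N → ℕ) (hmd : ∀ i, m i ≤ d)
    (hm : d < ∑ i, m i) :
    ∃ i, ∃ S : Finset (Fin d), d < S.card + m i ∧
      volume (lim a (t i) S '' Metric.closedBall v0 R) ≠ 0 := by
  by_contra hcon
  push Not at hcon
  obtain ⟨κ, M, hκ⟩ := exists_kernel d
  let η : ContDiffBump v0 := ⟨R / 4, R / 2, by positivity, by linarith⟩
  have hηs : ContDiff ℝ 1 η := η.contDiff
  have hηc : HasCompactSupport η := η.hasCompactSupport
  have hηt : tsupport η = Metric.closedBall v0 (R / 2) := η.tsupport_eq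
  have hρ0p : 0 < R / 2 := by positivity
  have key := fun (s : ℝ) (S : Finset (Fin d)) hs =>
    key_S hd ha v0 hR hS hκ hηs hηc hηt s S hs
  obtain ⟨w, hw⟩ := hermite t ht m hm
  -- the matrices
  set A : ℕ → (Fin d → ℝ) → Matrix (Fin d) (Fin d) ℝ := fun k v =>
    GM (fun i => mol κ (sc (R / 2) k) (fun v => a v i)) v with hA
  have hid : ∀ k v, (1 : ℝ) = ∑ x : (i : Fin N) × Fin (m i), w x *
      ∑ S ∈ (univ : Finset (Fin d)).powersetCard (d - x.2),
        (GM (fmS κ a (sc (R / 2) k) (t x.1) S) v).det := by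
    intro k v
    have h1 : (-(A k v)).charpoly.coeff d = 1 := by
      have := (Matrix.charpoly_monic (-(A k v))).coeff_natDegree
      rwa [Matrix.charpoly_natDegree_eq_dim, Fintype.card_fin] at this
    rw [← h1, hw _ (by rw [Matrix.charpoly_natDegree_eq_dim, Fintype.card_fin])]
    refine Finset.sum_congr rfl fun x _ => ?_
    rw [coeff_taylor _ _ ((x.2.2.le).trans (hmd x.1))]
    congr 1
    refine Finset.sum_congr rfl fun S _ => ?_
    rw [det_GM_fmS, hκ.GM_fm (sc_pos hρ0p k) ha]
  have hterm : ∀ (x : (i : Fin N) × Fin (m i)),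
      ∀ S ∈ (univ : Finset (Fin d)).powersetCard (d - x.2),
      Tendsto (fun k => ∫ v, η v * (GM (fmS κ a (sc (R / 2) k) (t x.1) S) v).det)
        atTop (𝓝 0) := by
    intro x S hSc
    apply key
    apply hcon
    rw [(Finset.mem_powersetCard.1 hSc).2]
    have := x.2.2
    have := hmd x.1
    omega
  have hsum : Tendsto (fun k => ∑ x : (i : Fin N) × Fin (m i), w x *
      ∑ S ∈ (univ : Finset (Fin d)).powersetCard (d - x.2),
        ∫ v, η v * (GM (fmS κ a (sc (R / 2) k) (t x.1) S) v).det) atTop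
      (𝓝 (∑ x : (i : Fin N) × Fin (m i), w x *
      ∑ S ∈ (univ : Finset (Fin d)).powersetCard (d - x.2), (0 : ℝ))) :=
    tendsto_finsetSum _ fun x _ => (tendsto_finsetSum _ fun S hSc => hterm x S hSc).const_mul _
  have hconst : ∀ k, ∑ x : (i : Fin N) × Fin (m i), w x *
      ∑ S ∈ (univ : Finset (Fin d)).powersetCard (d - x.2),
        ∫ v, η v * (GM (fmS κ a (sc (R / 2) k) (t x.1) S) v).det = ∫ v, η v := by
    intro k
    have hGc : ∀ (s : ℝ) (S : Finset (Fin d)), Continuous (GM (fmS κ a (sc (R / 2) k) s S)) :=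
      fun s S => continuous_GM fun j =>
        (contDiff_fmS hκ (sc_pos hρ0p k) ha s S j).of_le (by norm_num)
    have hint : ∀ (s : ℝ) (S : Finset (Fin d)),
        Integrable (fun v => η v * (GM (fmS κ a (sc (R / 2) k) s S) v).det) := by
      intro s S
      exact (hηs.continuous.mul (hGc s S).matrix_det).integrable_of_hasCompactSupport
        hηc.mul_right
    have h1 : ∀ v, η v = ∑ x : (i : Fin N) × Fin (m i), w x *
      ∑ S ∈ (univ : Finset (Fin d)).powersetCard (d - x.2),
        (η v * (GM (fmS κ a (sc (R / 2) k) (t x.1) S) v).det) := by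
      intro v
      have h2 := hid k v
      calc η v = η v * 1 := (mul_one _).symm
        _ = _ := by
          rw [h2, Finset.mul_sum]
          refine Finset.sum_congr rfl fun x _ => ?_
          rw [← Finset.mul_sum]
          ring
    calc _ = ∫ v, ∑ x : (i : Fin N) × Fin (m i), w x *
      ∑ S ∈ (univ : Finset (Fin d)).powersetCard (d - x.2),
        (η v * (GM (fmS κ a (sc (R / 2) k) (t x.1) S) v).det) := by
          rw [integral_finsetSum]
          · refine Finset.sum_congr rfl fun x _ => ?_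
            rw [integral_const_mul, integral_finsetSum _ fun S _ => hint _ S]
          · intro x _
            exact (integrable_finsetSum _ fun S _ => hint _ S).const_mul _
      _ = _ := by
          congr 1
          funext v
          exact (h1 v).symm
  simp_rw [hconst] at hsum
  simp only [Finset.sum_const_zero, mul_zero] at hsum
  have h0 : ∫ v, η v = 0 := tendsto_nhds_unique tendsto_const_nhds hsum
  have hpos : 0 < ∫ v, η v := η.integral_pos
  linarith

end Pool.Agent.R462.HP
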