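import Pool.Agent.R462.HP.Slices

set_option autoImplicit false

/-!
# The dimensions of the slices in Euclidean space
-/

open MeasureTheory Set Finset Topology Filter
open scoped MeasureTheory NNReal ENNReal

namespace Pool.Agent.R462.HP

open Pool.Agent.W769.Kak

/-- Euclidean space -/
abbrev E (n : ℕ) := EuclideanSpace ℝ (Fin n)

/-- `a` is of class `C^α` on `U` for some `α > 1 - 1/n`, or it is continuous and of the critical
class `W^{1-1/n,n}` on `U`. -/
def Regular {n : ℕ} (a : E n → E n) (U : Set (E n)) : Prop :=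
  (∃ α C : ℝ, 1 - 1 / (n : ℝ) < α ∧ ∀ r ∈ U, ∀ r' ∈ U, ‖a r - a r'‖ ≤ C * ‖r - r'‖ ^ α) ∨
    (ContinuousOn a U ∧
      ∫⁻ r in U, ∫⁻ r' in U, ‖a r - a r'‖ₑ ^ n / ‖r - r'‖ₑ ^ (2 * n - 1) < ⊤)

theorem norm_le_sup {n : ℕ} (v : Fin n → ℝ) : ‖(WithLp.toLp 2 v : E n)‖ ≤ n * ‖v‖ := by
  rw [EuclideanSpace.norm_eq]
  apply Real.sqrt_le_iff.2 ⟨by positivity, ?_⟩
  calc ∑ i, ‖(WithLp.toLp 2 v : E n) i‖ ^ 2 ≤ ∑ _i : Fin n, ‖v‖ ^ 2 := by
        apply Finset.sum_le_sum
        intro i _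
        exact pow_le_pow_left₀ (norm_nonneg _) (norm_le_pi_norm v i) 2
    _ = n * ‖v‖ ^ 2 := by
        rw [Finset.sum_const, Finset.card_univ, Fintype.card_fin, nsmul_eq_mul]
    _ ≤ (n * ‖v‖) ^ 2 := by
        rw [mul_pow]
        apply mul_le_mul_of_nonneg_right _ (by positivity)
        rcases Nat.eq_zero_or_pos n with h | h
        · rw [h]; norm_num
        · have : (1 : ℝ) ≤ n := by exact_mod_cast h
          nlinarith

theorem sup_le_norm {n : ℕ} (x : E n) : ‖(x.ofLp : Fin n → ℝ)‖ ≤ ‖x‖ := by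
  rw [pi_norm_le_iff_of_nonneg (norm_nonneg _)]
  intro i
  exact PiLp.norm_apply_le x i

/-- the map in coordinates -/
def cr {n : ℕ} (a : E n → E n) (v : Fin n → ℝ) : Fin n → ℝ := (a (WithLp.toLp 2 v)).ofLp

theorem null_lim {n : ℕ} {B : Set (E n)} {a : E n → E n} {s : ℝ} {S : Finset (Fin n)}
    {Q : Set (Fin n → ℝ)} (hB : μH[(S.card : ℝ)] B = 0)
    (hQ : ∀ v ∈ Q, a (WithLp.toLp 2 v) + s • (WithLp.toLp 2 v : E n) ∈ B) :
    volume (lim (cr a) s S '' Q) = 0 := by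
  classical
  let P : E n → ({i // i ∈ S} → ℝ) := fun x i => x i
  have hP : LipschitzWith 1 P := by
    apply LipschitzWith.of_dist_le_mul
    intro x y
    rw [NNReal.coe_one, one_mul, dist_pi_le_iff dist_nonneg]
    intro j
    rw [dist_eq_norm, dist_eq_norm]
    exact PiLp.norm_apply_le (x - y) (j : Fin n)
  have h1 : volume (P '' B) = 0 := by
    have h2 := hP.hausdorffMeasure_image_le (d := (S.card : ℝ)) (by positivity) B
    rw [hB, mul_zero] at h2
    have h3 : (Measure.hausdorffMeasure ((Fintype.card {i // i ∈ S} : ℕ) : ℝ) :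
      Measure ({i // i ∈ S} → ℝ)) = volume := hausdorffMeasure_pi_real
    rw [Fintype.card_coe] at h3
    rw [← h3]
    exact le_antisymm h2 zero_le
  have h4 := volume_preserving_piEquivPiSubtypeProd (fun _ : Fin n => ℝ) (fun i => i ∈ S)
  have h5 : ∀ inst : Fintype {i // i ∈ S}, @MeasureSpace.volume _
      (@MeasureSpace.pi {i // i ∈ S} inst (fun _ => ℝ) _) (P '' B) = 0 := by
    intro inst
    rw [Subsingleton.elim inst (Finset.Subtype.fintype S)]
    exact h1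
  have h6 := h4.quasiMeasurePreserving.preimage_null (s := (P '' B) ×ˢ univ) (by
    rw [Measure.volume_eq_prod, Measure.prod_prod, h5, zero_mul])
  refine measure_mono_null ?_ h6
  rintro _ ⟨v, hv, rfl⟩
  refine ⟨⟨_, hQ v hv, ?_⟩, trivial⟩
  funext i
  change (a (WithLp.toLp 2 v) + s • (WithLp.toLp 2 v : E n)) i = lim (cr a) s S v i
  simp only [lim, cr, if_pos i.2, PiLp.add_apply, PiLp.smul_apply, smul_eq_mul]

theorem continuousOn_of_hoelder {n : ℕ} {a : (Fin n → ℝ) → Fin n → ℝ} {Q : Set (Fin n → ℝ)}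
    {C α : ℝ} (hα : 0 < α) (h : ∀ v ∈ Q, ∀ w ∈ Q, ‖a v - a w‖ ≤ C * ‖v - w‖ ^ α) :
    ContinuousOn a Q := by
  intro w hw
  rw [ContinuousWithinAt, tendsto_iff_norm_sub_tendsto_zero]
  have h1 : Tendsto (fun v => C * ‖v - w‖ ^ α) (𝓝[Q] w) (𝓝 0) := by
    have h2 : Continuous (fun v : Fin n → ℝ => C * ‖v - w‖ ^ α) := by
      refine continuous_const.mul ?_
      exact (continuous_id.sub continuous_const).norm.rpow_const (fun _ => Or.inr hα.le)
    have h3 := h2.tendsto w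
    simp only [sub_self, norm_zero, Real.zero_rpow hα.ne', mul_zero] at h3
    exact h3.mono_left nhdsWithin_le_nhds
  refine squeeze_zero' (Eventually.of_forall fun _ => norm_nonneg _) ?_ h1
  filter_upwards [self_mem_nhdsWithin] with v hv
  exact h v hv w hw

theorem regOn_of_regular {n : ℕ} (hn : 1 ≤ n) {a : E n → E n} {U : Set (E n)}
    (hreg : Regular a U) {v0 : Fin n → ℝ} {R : ℝ}
    (hU : ∀ v ∈ Metric.closedBall v0 R, (WithLp.toLp 2 v : E n) ∈ U) :
    ContinuousOn (cr a) (Metric.closedBall v0 R) ∧ RegOn (cr a) v0 R := by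
  have hn' : (1 : ℝ) ≤ n := by exact_mod_cast hn
  have hn0 : (0 : ℝ) < n := by linarith
  rcases hreg with ⟨α, C, hα, hH⟩ | ⟨hc, hW⟩
  · have hα0 : 0 < α := by
      have : 1 / (n : ℝ) ≤ 1 := by rw [div_le_one hn0]; exact hn'
      linarith
    have hH' : ∀ v ∈ Metric.closedBall v0 R, ∀ w ∈ Metric.closedBall v0 R,
        ‖cr a v - cr a w‖ ≤ (|C| * (n : ℝ) ^ α) * ‖v - w‖ ^ α := by
      intro v hv w hw
      have h1 := hH _ (hU v hv) _ (hU w hw)
      have h2 : ‖cr a v - cr a w‖ ≤ ‖a (WithLp.toLp 2 v) - a (WithLp.toLp 2 w)‖ := by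
        have := sup_le_norm (a (WithLp.toLp 2 v) - a (WithLp.toLp 2 w))
        exact this
      have h3 : ‖(WithLp.toLp 2 v : E n) - WithLp.toLp 2 w‖ ≤ n * ‖v - w‖ := norm_le_sup (v - w)
      calc ‖cr a v - cr a w‖ ≤ C * ‖(WithLp.toLp 2 v : E n) - WithLp.toLp 2 w‖ ^ α := h2.trans h1
        _ ≤ |C| * (n * ‖v - w‖) ^ α := by
          gcongr
          exact le_abs_self C
        _ = (|C| * (n : ℝ) ^ α) * ‖v - w‖ ^ α := by
          rw [Real.mul_rpow hn0.le (norm_nonneg _)]; ring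
    refine ⟨continuousOn_of_hoelder hα0 hH', Or.inl ⟨|C| * (n : ℝ) ^ α, α, hα0, ?_, hH'⟩⟩
    have := mul_lt_mul_of_pos_right hα hn0
    rw [sub_mul, one_div, inv_mul_cancel₀ hn0.ne'] at this
    linarith
  · constructor
    · have h1 : ContinuousOn (fun v => a (WithLp.toLp 2 v)) (Metric.closedBall v0 R) :=
        hc.comp (PiLp.continuous_toLp 2 _).continuousOn hU
      exact (PiLp.continuous_ofLp 2 _).comp_continuousOn h1
    · right
      set F : E n → E n → ℝ≥0∞ := fun r r' => ‖a r - a r'‖ₑ ^ n / ‖r - r'‖ₑ ^ (2 * n - 1) with hF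
      set K : ℝ≥0∞ := ENNReal.ofReal n ^ (2 * n - 1) with hK
      have hKtop : K ≠ ⊤ := ENNReal.pow_ne_top ENNReal.ofReal_ne_top
      have hpt : ∀ v w : Fin n → ℝ, ‖cr a v - cr a w‖ₑ ^ n / ‖v - w‖ₑ ^ (2 * n - 1) ≤
          K * F (WithLp.toLp 2 v) (WithLp.toLp 2 w) := by
        intro v w
        have h2 : ‖cr a v - cr a w‖ₑ ≤ ‖a (WithLp.toLp 2 v) - a (WithLp.toLp 2 w)‖ₑ := by
          rw [← ofReal_norm, ← ofReal_norm]
          exact ENNReal.ofReal_le_ofReal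
            (sup_le_norm (a (WithLp.toLp 2 v) - a (WithLp.toLp 2 w)))
        have h3 : ‖(WithLp.toLp 2 v : E n) - WithLp.toLp 2 w‖ₑ ≤ ENNReal.ofReal n * ‖v - w‖ₑ := by
          rw [← ofReal_norm, ← ofReal_norm, ← ENNReal.ofReal_mul hn0.le]
          exact ENNReal.ofReal_le_ofReal (norm_le_sup (v - w))
        have hN0 : ENNReal.ofReal (n : ℝ) ≠ 0 := by
          rw [Ne, ENNReal.ofReal_eq_zero, not_le]; exact hn0
        calc ‖cr a v - cr a w‖ₑ ^ n / ‖v - w‖ₑ ^ (2 * n - 1)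
            ≤ ‖a (WithLp.toLp 2 v) - a (WithLp.toLp 2 w)‖ₑ ^ n / ‖v - w‖ₑ ^ (2 * n - 1) := by
              gcongr
          _ = K * (‖a (WithLp.toLp 2 v) - a (WithLp.toLp 2 w)‖ₑ ^ n /
              (ENNReal.ofReal n * ‖v - w‖ₑ) ^ (2 * n - 1)) := by
              rw [mul_pow, ← hK, ENNReal.div_eq_inv_mul, ENNReal.div_eq_inv_mul,
                ENNReal.mul_inv (Or.inl (pow_ne_zero _ hN0)) (Or.inl hKtop), ← mul_assoc,
                ← mul_assoc, ENNReal.mul_inv_cancel (pow_ne_zero _ hN0) hKtop, one_mul]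
          _ ≤ K * F (WithLp.toLp 2 v) (WithLp.toLp 2 w) := by
              simp only [hF]
              gcongr
      have hpre : Metric.closedBall v0 R ⊆ (WithLp.toLp 2 : (Fin n → ℝ) → E n) ⁻¹' U := hU
      have hmp := PiLp.volume_preserving_toLp (Fin n)
      have hemb : MeasurableEmbedding (WithLp.toLp 2 : (Fin n → ℝ) → E n) :=
        (MeasurableEquiv.toLp 2 (Fin n → ℝ)).measurableEmbedding
      have hin : ∀ v : Fin n → ℝ, ∫⁻ w in Metric.closedBall v0 R,
          ‖cr a v - cr a w‖ₑ ^ n / ‖v - w‖ₑ ^ (2 * n - 1) ≤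
          K * ∫⁻ r' in U, F (WithLp.toLp 2 v) r' := by
        intro v
        calc _ ≤ ∫⁻ w in Metric.closedBall v0 R, K * F (WithLp.toLp 2 v) (WithLp.toLp 2 w) :=
              lintegral_mono fun w => hpt v w
          _ = K * ∫⁻ w in Metric.closedBall v0 R, F (WithLp.toLp 2 v) (WithLp.toLp 2 w) :=
              lintegral_const_mul' _ _ hKtop
          _ ≤ K * ∫⁻ w in (WithLp.toLp 2 : (Fin n → ℝ) → E n) ⁻¹' U,
                F (WithLp.toLp 2 v) (WithLp.toLp 2 w) := by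
              gcongr
          _ = K * ∫⁻ r' in U, F (WithLp.toLp 2 v) r' := by
              rw [hmp.setLIntegral_comp_preimage_emb hemb]
      have hout : ∫⁻ v in Metric.closedBall v0 R, ∫⁻ w in Metric.closedBall v0 R,
          ‖cr a v - cr a w‖ₑ ^ n / ‖v - w‖ₑ ^ (2 * n - 1) ≤
          K * ∫⁻ r in U, ∫⁻ r' in U, F r r' := by
        calc _ ≤ ∫⁻ v in Metric.closedBall v0 R, K * ∫⁻ r' in U, F (WithLp.toLp 2 v) r' :=
              lintegral_mono fun v => hin v
          _ = K * ∫⁻ v in Metric.closedBall v0 R, ∫⁻ r' in U, F (WithLp.toLp 2 v) r' :=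
              lintegral_const_mul' _ _ hKtop
          _ ≤ K * ∫⁻ v in (WithLp.toLp 2 : (Fin n → ℝ) → E n) ⁻¹' U,
                ∫⁻ r' in U, F (WithLp.toLp 2 v) r' := by
              gcongr
          _ = K * ∫⁻ r in U, ∫⁻ r' in U, F r r' := by
              rw [hmp.setLIntegral_comp_preimage_emb hemb (fun r => ∫⁻ r' in U, F r r')]
      exact ne_top_of_le_ne_top (ENNReal.mul_ne_top hKtop hW.ne) hout

theorem exists_cube {n : ℕ} {U : Set (E n)} (hU : IsOpen U) (hUn : U.Nonempty) :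
    ∃ (v0 : Fin n → ℝ) (R : ℝ), 0 < R ∧ ∀ v ∈ Metric.closedBall v0 R,
      (WithLp.toLp 2 v : E n) ∈ U := by
  obtain ⟨r0, hr0⟩ := hUn
  have h1 : IsOpen ((WithLp.toLp 2 : (Fin n → ℝ) → E n) ⁻¹' U) :=
    hU.preimage (PiLp.continuous_toLp 2 _)
  obtain ⟨ε, hε, h2⟩ := Metric.isOpen_iff.1 h1 r0.ofLp hr0
  exact ⟨r0.ofLp, ε / 2, by positivity, fun v hv =>
    h2 (Metric.closedBall_subset_ball (by linarith) hv)⟩

/-- **The dimensions of the slices.** -/
theorem slices_dim {n : ℕ} (hn : 1 ≤ n) {U : Set (E n)} (hU : IsOpen U) (hUn : U.Nonempty)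
    {a : E n → E n} (hreg : Regular a U) (T : Finset ℝ) (B : ℝ → Set (E n)) (d : ℝ → ℕ)
    (hB : ∀ t ∈ T, ∀ r ∈ U, a r + t • r ∈ B t) (hB0 : ∀ t ∈ T, μH[(d t : ℝ) + 1] (B t) = 0) :
    ∑ t ∈ T, (n - d t) ≤ n := by
  by_contra hcon
  rw [not_le] at hcon
  obtain ⟨v0, R, hR, hcube⟩ := exists_cube hU hUn
  obtain ⟨hc, hr⟩ := regOn_of_regular hn hreg hcube
  have hsum : n < ∑ i : Fin T.card, (n - d (T.equivFin.symm i : ℝ)) := by
    have h1 : ∑ i : Fin T.card, (n - d (T.equivFin.symm i : ℝ)) = ∑ x : T, (n - d (x : ℝ)) :=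
      Equiv.sum_comp T.equivFin.symm (fun x : T => n - d (x : ℝ))
    rw [h1, Finset.sum_coe_sort T (fun t => n - d t)]
    exact hcon
  obtain ⟨i, S, h1, h2⟩ := slices_reg hn v0 hR hc hr (fun i => (T.equivFin.symm i : ℝ))
    (fun i j hij => T.equivFin.symm.injective (Subtype.ext hij))
    (fun i => n - d (T.equivFin.symm i : ℝ)) (fun i => Nat.sub_le _ _) hsum
  apply h2
  set t : ℝ := (T.equivFin.symm i : ℝ) with ht
  have htT : t ∈ T := (T.equivFin.symm i).2
  refine null_lim (B := B t) ?_ (fun v hv => hB t htT _ (hcube v hv))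
  have h1' : n < S.card + (n - d t) := h1
  have hSn : S.card ≤ n := by simpa using S.card_le_univ
  have h3 : (d t : ℝ) + 1 ≤ S.card := by
    have : d t + 1 ≤ S.card := by omega
    exact_mod_cast this
  exact le_antisymm ((Measure.hausdorffMeasure_mono h3 (B t)).trans (hB0 t htT).le) zero_le

end Pool.Agent.R462.HP
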