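import Pool.Agent.W769.Kak.Core

set_option autoImplicit false

/-!
# Principal minors

The Taylor coefficients of `det (A + X)` are sums of principal minors, and principal minors of
Jacobian matrices are Jacobian determinants of maps some of whose components are coordinates.
-/

open Polynomial Finset MeasureTheory

namespace Pool.Agent.R462.HP

open Pool.Agent.W769.Kak

variable {d : ℕ}

theorem coeff_charpoly_neg (A : Matrix (Fin d) (Fin d) ℝ) {j : ℕ} (hj : j ≤ d) :
    (-A).charpoly.coeff j = ∑ s ∈ (univ : Finset (Fin d)).powersetCard (d - j),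
      (A.submatrix (Subtype.val : s → Fin d) (Subtype.val : s → Fin d)).det := by
  have h := Matrix.charpoly_coeff_eq_sum_minors (-A) (d - j) (by simp)
  rw [Fintype.card_fin, Nat.sub_sub_self hj] at h
  rw [h, Finset.mul_sum]
  refine Finset.sum_congr rfl fun s hs => ?_
  have h2 : (-A).submatrix (Subtype.val : s → Fin d) (Subtype.val : s → Fin d) =
      -(A.submatrix (Subtype.val : s → Fin d) (Subtype.val : s → Fin d)) := rfl
  rw [h2, Matrix.det_neg, Fintype.card_coe,
    (Finset.mem_powersetCard.1 hs).2, ← mul_assoc, ← mul_pow]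
  norm_num

theorem taylor_charpoly (A : Matrix (Fin d) (Fin d) ℝ) (t : ℝ) :
    taylor t (-A).charpoly = (-(A + t • (1 : Matrix (Fin d) (Fin d) ℝ))).charpoly := by
  rw [taylor_apply, Matrix.charpoly, ← coe_compRingHom_apply, RingHom.map_det, Matrix.charpoly]
  congr 1
  ext i j : 2
  rw [RingHom.mapMatrix_apply, Matrix.map_apply]
  by_cases h : i = j
  · subst h
    simp [Matrix.charmatrix_apply_eq]
    ring
  · simp [h]

theorem coeff_taylor (A : Matrix (Fin d) (Fin d) ℝ) (t : ℝ) {j : ℕ} (hj : j ≤ d) :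
    (taylor t (-A).charpoly).coeff j = ∑ s ∈ (univ : Finset (Fin d)).powersetCard (d - j),
      ((A + t • (1 : Matrix (Fin d) (Fin d) ℝ)).submatrix
        (Subtype.val : s → Fin d) (Subtype.val : s → Fin d)).det := by
  rw [taylor_charpoly, coeff_charpoly_neg _ hj]

/-- the slice map with the coordinates off `S` replaced by the coordinates of the point -/
noncomputable def fmS (κ : (Fin d → ℝ) → ℝ) (a : (Fin d → ℝ) → Fin d → ℝ) (ρ t : ℝ)
    (S : Finset (Fin d)) : Fin d → (Fin d → ℝ) → ℝ :=
  fun i => if i ∈ S then fm κ a ρ t i else fun v => v i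

theorem contDiff_fmS {κ : (Fin d → ℝ) → ℝ} {M : ℝ} (h : IsKernel κ M) {ρ : ℝ}
    (hρ : 0 < ρ) {a : (Fin d → ℝ) → Fin d → ℝ} (ha : Continuous a) (t : ℝ) (S : Finset (Fin d))
    (i : Fin d) : ContDiff ℝ 2 (fmS κ a ρ t S i) := by
  unfold fmS
  split_ifs
  · exact h.contDiff_fm hρ ha t i
  · fun_prop

theorem pd_coord (i j : Fin d) (v : Fin d → ℝ) :
    pd (fun v : Fin d → ℝ => v i) j v = if i = j then 1 else 0 := by
  unfold pd
  have h2 : HasFDerivAt (fun v : Fin d → ℝ => v i)
      (ContinuousLinearMap.proj (R := ℝ) (φ := fun _ : Fin d => ℝ) i) v :=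
    (ContinuousLinearMap.proj (R := ℝ) (φ := fun _ : Fin d => ℝ) i).hasFDerivAt
  rw [h2.fderiv]
  simp [Pi.single_apply]

theorem det_GM_fmS (κ : (Fin d → ℝ) → ℝ) (a : (Fin d → ℝ) → Fin d → ℝ) (ρ t : ℝ)
    (S : Finset (Fin d)) (v : Fin d → ℝ) :
    (GM (fmS κ a ρ t S) v).det =
      ((GM (fm κ a ρ t) v).submatrix (Subtype.val : S → Fin d) (Subtype.val : S → Fin d)).det := by
  rw [← Matrix.det_transpose, ← Matrix.det_transpose (Matrix.submatrix _ _ _),
    Matrix.transpose_submatrix, ← Matrix.det_piecewise_one_eq_submatrix_det]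
  congr 1
  ext i j
  simp only [Matrix.transpose_apply, GM, fmS, Matrix.of_apply, Finset.piecewise]
  split_ifs with hi
  · rfl
  · rw [pd_coord, Matrix.row, Matrix.one_apply]

end Pool.Agent.R462.HP
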