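import Pool.Agent.R462.HP.Euclid
import Pool.Agent.TH539.AlgProgUpper

set_option autoImplicit false

/-!
# Progressions whose first term is a regular function of the common difference
-/

open MeasureTheory Set Finset Topology Filter
open scoped MeasureTheory NNReal ENNReal

namespace Pool.Agent.R462.HP

open Pool.Agent.TH539.AlgProg (coverNum upperMinkowski Ex)

/-- progressions with differences in `U`, regular choice -/
theorem prog_reg {n k : ℕ} (hn : 1 ≤ n) (hk : 1 ≤ k) {U : Set (E n)} (hU : IsOpen U)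
    (hUn : U.Nonempty) {a : E n → E n} (hreg : Regular a U) {B : Set (E n)}
    (hB : ∀ r ∈ U, ∀ j : ℕ, j < k → a r + (j : ℝ) • r ∈ B) :
    μH[((n - n / k : ℕ) : ℝ)] B ≠ 0 := by
  intro h0
  rcases Nat.eq_zero_or_pos (n - n / k) with hq | hq
  · rw [hq, Nat.cast_zero] at h0
    obtain ⟨r, hr⟩ := hUn
    have h1 : (Measure.hausdorffMeasure (0 : ℝ) : Measure (E n)) {a r + ((0 : ℕ) : ℝ) • r} = 0 :=
      measure_mono_null (by
        rw [Set.singleton_subset_iff]
        exact hB r hr 0 (by omega)) h0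
    rw [Measure.hausdorffMeasure_zero_singleton] at h1
    exact one_ne_zero h1
  · set T : Finset ℝ := (Finset.range k).map ⟨fun j : ℕ => (j : ℝ), Nat.cast_injective⟩ with hT
    have h1 := slices_dim hn hU hUn hreg T (fun _ => B) (fun _ => n - n / k - 1) (by
      intro t ht r hr
      obtain ⟨j, hj, rfl⟩ := Finset.mem_map.1 ht
      exact hB r hr j (Finset.mem_range.1 hj)) (by
      intro t _
      have h2 : ((n - n / k - 1 : ℕ) : ℝ) + 1 = ((n - n / k : ℕ) : ℝ) := by
        have : n - n / k - 1 + 1 = n - n / k := by omega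
        exact_mod_cast this
      rw [h2]
      exact h0)
    rw [Finset.sum_const, hT, Finset.card_map, Finset.card_range, smul_eq_mul] at h1
    have h2 : n - (n - n / k - 1) = n / k + 1 := by
      have h3 := Nat.div_le_self n k
      generalize n / k = q at h3 hq ⊢
      omega
    rw [h2] at h1
    have h3 := Nat.lt_mul_div_succ n (show 0 < k by omega)
    omega

/-- If `μH[n] B ≠ 0` then `B` has positive volume. -/
theorem volume_pos {n : ℕ} {B : Set (E n)} (h : μH[(n : ℝ)] B ≠ 0) : 0 < volume B := by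
  have h3 : Measure.IsAddHaarMeasure
      (Measure.hausdorffMeasure (n : ℝ) : Measure (E n)) := by
    simpa using MeasureTheory.isAddHaarMeasure_hausdorffMeasure (E := E n)
  rw [pos_iff_ne_zero]
  intro h0
  apply h
  have h4 := Measure.isAddLeftInvariant_eq_smul
    (Measure.hausdorffMeasure (n : ℝ) : Measure (E n)) volume
  rw [h4, Measure.smul_apply, h0, smul_zero]

/-! ### lower regularity: restriction to `m` coordinates -/

/-- the point with the given first coordinates -/
def emb {m p : ℕ} (r0 : E (m + p)) (r : E m) : E (m + p) :=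
  WithLp.toLp 2 (Fin.append r.ofLp (fun i => r0 (Fin.natAdd m i)))

/-- the first coordinates -/
def fst {m p : ℕ} (x : E (m + p)) : E m := WithLp.toLp 2 (fun i => x (Fin.castAdd p i))

theorem norm_emb_sub {m p : ℕ} (r0 : E (m + p)) (r r' : E m) :
    ‖emb r0 r - emb r0 r'‖ = ‖r - r'‖ := by
  rw [EuclideanSpace.norm_eq, EuclideanSpace.norm_eq, Fin.sum_univ_add]
  simp [emb]

theorem continuous_emb {m p : ℕ} (r0 : E (m + p)) : Continuous (emb (m := m) r0) := by
  have : Isometry (emb (m := m) r0) := by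
    apply Isometry.of_dist_eq
    intro x y
    rw [dist_eq_norm, dist_eq_norm, norm_emb_sub]
  exact this.continuous

theorem fst_emb {m p : ℕ} (r0 : E (m + p)) (r : E m) : fst (emb r0 r) = r := by
  ext i
  simp [fst, emb]

theorem emb_fst {m p : ℕ} (r0 : E (m + p)) : emb r0 (fst r0) = r0 := by
  ext i
  refine Fin.addCases (fun j => ?_) (fun j => ?_) i <;> simp [fst, emb]

theorem fst_add_smul {m p : ℕ} (x y : E (m + p)) (s : ℝ) : fst (x + s • y) = fst x + s • fst y := by
  ext i
  simp [fst]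

theorem fst_sub {m p : ℕ} (x y : E (m + p)) : fst (x - y) = fst x - fst y := by
  ext i
  simp [fst]

theorem norm_fst_le {m p : ℕ} (x : E (m + p)) : ‖fst x‖ ≤ ‖x‖ := by
  rw [EuclideanSpace.norm_eq, EuclideanSpace.norm_eq, Fin.sum_univ_add]
  apply Real.sqrt_le_sqrt
  simp only [fst]
  have : 0 ≤ ∑ i : Fin p, ‖x (Fin.natAdd m i)‖ ^ 2 := Finset.sum_nonneg fun _ _ => by positivity
  linarith

theorem lipschitz_fst {m p : ℕ} : LipschitzWith 1 (fst (m := m) (p := p)) := by
  apply LipschitzWith.of_dist_le_mul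
  intro x y
  rw [NNReal.coe_one, one_mul, dist_eq_norm, dist_eq_norm, ← fst_sub]
  exact norm_fst_le _

/-- progressions with differences in `U`, Hölder choice with any exponent `> 1 - 1/m` -/
theorem prog_low {n m k : ℕ} (hm : 1 ≤ m) (hmn : m ≤ n) (hk : 1 ≤ k) {U : Set (E n)}
    (hU : IsOpen U) (hUn : U.Nonempty) {a : E n → E n} {α C : ℝ} (hα : 1 - 1 / (m : ℝ) < α)
    (ha : ∀ r ∈ U, ∀ r' ∈ U, ‖a r - a r'‖ ≤ C * ‖r - r'‖ ^ α) {B : Set (E n)}
    (hB : ∀ r ∈ U, ∀ j : ℕ, j < k → a r + (j : ℝ) • r ∈ B) :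
    μH[((m - m / k : ℕ) : ℝ)] B ≠ 0 := by
  obtain ⟨p, rfl⟩ := Nat.exists_eq_add_of_le hmn
  obtain ⟨r0, hr0⟩ := hUn
  have h1 : IsOpen ((emb (m := m) r0) ⁻¹' U) := hU.preimage (continuous_emb r0)
  have h2 : ((emb (m := m) r0) ⁻¹' U).Nonempty := ⟨fst r0, by
    rw [Set.mem_preimage, emb_fst]; exact hr0⟩
  have h3 := prog_reg (a := fun r => fst (a (emb r0 r))) hm hk h1 h2
    (Or.inl ⟨α, C, hα, fun r hr r' hr' => by
      rw [← fst_sub]
      refine (norm_fst_le _).trans ?_
      rw [← norm_emb_sub r0 r r']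
      exact ha _ hr _ hr'⟩) (B := fst '' B) (by
    intro r hr j hj
    refine ⟨_, hB _ hr j hj, ?_⟩
    rw [fst_add_smul, fst_emb])
  intro h0
  apply h3
  have h4 := (lipschitz_fst (m := m) (p := p)).hausdorffMeasure_image_le
    (d := ((m - m / k : ℕ) : ℝ)) (by positivity) B
  rw [h0, mul_zero] at h4
  exact le_antisymm h4 zero_le

/-! ### Minkowski dimension -/

theorem le_upperMinkowski {n : ℕ} {B : Set (E n)} (hBb : Bornology.IsBounded B) {s : ℝ}
    (hs : 0 ≤ s) (h : μH[s] B ≠ 0) : (s : EReal) ≤ upperMinkowski B := by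
  classical
  have hBne : B.Nonempty := by
    rw [Set.nonempty_iff_ne_empty]
    rintro rfl
    exact h measure_empty
  have hcov1 : ∀ δ : ℝ, 0 < δ → 1 ≤ (coverNum B δ : ℝ) := by
    intro δ hδ
    obtain ⟨U, hU, hBU⟩ := Nat.sInf_mem (Pool.Agent.TH539.AlgProg.cover_nonempty hBb hδ)
    obtain ⟨x, hx⟩ := hBne
    obtain ⟨i, -⟩ := Set.mem_iUnion.1 (hBU hx)
    have : 0 < coverNum B δ := i.pos
    exact_mod_cast this
  suffices hκ : ∃ κ : ℝ, 0 < κ ∧ ∀ δ : ℝ, 0 < δ → κ * δ ^ (-s) ≤ (coverNum B δ : ℝ) by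
    obtain ⟨κ, h1, h2⟩ := hκ
    exact Pool.Agent.TH539.AlgProg.le_dim h1 h2
  rcases hs.eq_or_lt with hs0 | hspos
  · refine ⟨1, one_pos, fun δ hδ => ?_⟩
    rw [← hs0, neg_zero, Real.rpow_zero, mul_one]
    exact hcov1 δ hδ
  by_contra hcon
  push Not at hcon
  choose δ hδ hlt using fun l : ℕ => hcon (1 / ((l : ℝ) + 1)) (by positivity)
  -- the diameters tend to zero
  have hsmall : ∀ l, (coverNum B (δ l) : ℝ) * δ l ^ s < 1 / ((l : ℝ) + 1) := by
    intro l
    have h1 := hlt l
    rw [Real.rpow_neg (hδ l).le] at h1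
    have h2 : 0 < δ l ^ s := Real.rpow_pos_of_pos (hδ l) s
    have h3 := mul_lt_mul_of_pos_right h1 h2
    rwa [mul_assoc, inv_mul_cancel₀ h2.ne', mul_one] at h3
  have hlim1 : Tendsto (fun l : ℕ => 1 / ((l : ℝ) + 1)) atTop (𝓝 0) :=
    tendsto_one_div_add_atTop_nhds_zero_nat
  have hδs : Tendsto (fun l => δ l ^ s) atTop (𝓝 0) := by
    refine squeeze_zero (fun l => Real.rpow_nonneg (hδ l).le s) (fun l => ?_) hlim1
    have h1 := hsmall l
    have h2 := hcov1 (δ l) (hδ l)
    have h3 : 0 < δ l ^ s := Real.rpow_pos_of_pos (hδ l) s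
    nlinarith
  have hδ0 : Tendsto δ atTop (𝓝 0) := by
    have h1 : Tendsto (fun l => (δ l ^ s) ^ s⁻¹) atTop (𝓝 ((0 : ℝ) ^ s⁻¹)) :=
      hδs.rpow_const (Or.inr (by positivity))
    rw [Real.zero_rpow (inv_ne_zero hspos.ne')] at h1
    refine h1.congr fun l => ?_
    rw [← Real.rpow_mul (hδ l).le, mul_inv_cancel₀ hspos.ne', Real.rpow_one]
  choose U hU hBU using fun l => Nat.sInf_mem (Pool.Agent.TH539.AlgProg.cover_nonempty hBb (hδ l))
  apply h
  have hfin := Measure.hausdorffMeasure_le_liminf_sum (X := E n)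
    (ι := fun l : ℕ => Fin (coverNum B (δ l))) s B (l := atTop)
    (fun l => ENNReal.ofReal (δ l)) (by
      have := ENNReal.tendsto_ofReal hδ0
      simpa using this) (fun l i => U l i)
    (Eventually.of_forall fun l i => by
      apply Metric.ediam_le
      intro x hx y hy
      rw [edist_dist]
      exact ENNReal.ofReal_le_ofReal (hU l i x hx y hy))
    (Eventually.of_forall fun l => hBU l)
  refine le_antisymm (hfin.trans ?_) zero_le
  have hlim : Tendsto (fun l : ℕ => ENNReal.ofReal (1 / ((l : ℝ) + 1))) atTop (𝓝 0) := by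
    have := ENNReal.tendsto_ofReal hlim1
    simpa using this
  rw [← hlim.liminf_eq]
  refine liminf_le_liminf (Eventually.of_forall fun l => ?_)
  calc ∑ i : Fin (coverNum B (δ l)), Metric.ediam (U l i) ^ s
      ≤ ∑ _i : Fin (coverNum B (δ l)), ENNReal.ofReal (δ l ^ s) := by
        refine Finset.sum_le_sum fun i _ => ?_
        rw [← ENNReal.ofReal_rpow_of_pos (hδ l)]
        apply ENNReal.rpow_le_rpow _ hs
        apply Metric.ediam_le
        intro x hx y hy
        rw [edist_dist]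
        exact ENNReal.ofReal_le_ofReal (hU l i x hx y hy)
    _ = ENNReal.ofReal ((coverNum B (δ l) : ℝ) * δ l ^ s) := by
        rw [Finset.sum_const, Finset.card_univ, Fintype.card_fin, nsmul_eq_mul,
          ENNReal.ofReal_mul (Nat.cast_nonneg _), ENNReal.ofReal_natCast]
    _ ≤ ENNReal.ofReal (1 / ((l : ℝ) + 1)) := ENNReal.ofReal_le_ofReal (hsmall l).le

end Pool.Agent.R462.HP
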