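import Pool.Agent.R462.HP.Prog

set_option autoImplicit false

/-!
# Sharpness: linear choices
-/

open MeasureTheory Set Finset Topology Filter
open scoped MeasureTheory NNReal ENNReal

namespace Pool.Agent.R462.HP

open Pool.Agent.TH539.AlgProg (coverNum upperMinkowski Ex exists_tau)

/-- coordinate subspaces have the expected dimension -/
theorem coord_null {n d : ℕ} (hd : d ≤ n) (S : Finset (Fin n)) (hS : S.card = n - d) :
    μH[(d : ℝ) + 1] {x : E n | ∀ i ∈ S, x i = 0} = 0 := by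
  classical
  let f : ({i // i ∉ S} → ℝ) → E n := fun x => WithLp.toLp 2 fun i =>
    if h : i ∉ S then x ⟨i, h⟩ else 0
  have hf : ContDiff ℝ 1 f := by
    rw [contDiff_euclidean]
    intro i
    by_cases h : i ∉ S
    · simp only [f, dif_pos h]
      fun_prop
    · simp only [f, dif_neg h]
      fun_prop
  have h1 := hf.dimH_range_le
  have hcard : Fintype.card {i // i ∉ S} = d := by
    rw [Fintype.card_subtype_compl, Fintype.card_fin, Fintype.card_coe, hS]
    omega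
  rw [Module.finrank_fintype_fun_eq_card, hcard] at h1
  have h2 : μH[((d + 1 : ℝ≥0) : ℝ)] (range f) = 0 := by
    apply hausdorffMeasure_of_dimH_lt
    refine lt_of_le_of_lt h1 ?_
    push_cast
    exact ENNReal.lt_add_right (ENNReal.natCast_ne_top d) one_ne_zero
  have h3 : ((d + 1 : ℝ≥0) : ℝ) = (d : ℝ) + 1 := by push_cast; rfl
  rw [h3] at h2
  refine measure_mono_null ?_ h2
  intro x hx
  refine ⟨fun i => x i, ?_⟩
  ext i
  by_cases h : i ∉ S
  · simp [f, h]
  · simp only [f, dif_neg h]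
    exact (hx i (not_not.1 h)).symm

theorem lipschitz_diag {n : ℕ} (τ : Fin n → ℝ) (M : ℝ) (hτ : ∀ i, |τ i| ≤ M) (hM : 0 ≤ M)
    (r r' : E n) : ‖(WithLp.toLp 2 (fun i => -(τ i * r i)) : E n) -
      WithLp.toLp 2 (fun i => -(τ i * r' i))‖ ≤ M * ‖r - r'‖ := by
  rw [EuclideanSpace.norm_eq, EuclideanSpace.norm_eq]
  apply Real.sqrt_le_iff.2 ⟨by positivity, ?_⟩
  rw [mul_pow, Real.sq_sqrt (Finset.sum_nonneg fun _ _ => by positivity), Finset.mul_sum]
  refine Finset.sum_le_sum fun i _ => ?_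
  have h1 : ((WithLp.toLp 2 (fun i => -(τ i * r i)) : E n) -
      WithLp.toLp 2 (fun i => -(τ i * r' i))) i = -(τ i) * (r - r') i := by
    simp only [PiLp.sub_apply]
    ring
  rw [h1, norm_mul, mul_pow, norm_neg, Real.norm_eq_abs]
  gcongr
  exact hτ i

/-- every admissible list of dimensions occurs, for a linear choice -/
theorem slices_sharp {n : ℕ} (hn : 1 ≤ n) (T : Finset ℝ) (d : ℝ → ℕ) (hd : ∀ t ∈ T, d t ≤ n)
    (h : ∑ t ∈ T, (n - d t) ≤ n) :
    ∃ (U : Set (E n)) (a : E n → E n), IsOpen U ∧ U.Nonempty ∧ Regular a U ∧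
      ∀ t ∈ T, μH[(d t : ℝ) + 1] ((fun r => a r + t • r) '' U) = 0 := by
  classical
  obtain ⟨τ, -, hτ⟩ := exists_tau (n := n) T d h
  refine ⟨univ, fun r => WithLp.toLp 2 (fun i => -(τ i * r i)), isOpen_univ, univ_nonempty,
    Or.inl ⟨1, ∑ i, |τ i|, ?_, ?_⟩, ?_⟩
  · have : (0 : ℝ) < 1 / n := by
      have : (0 : ℝ) < n := by exact_mod_cast hn
      positivity
    linarith
  · intro r _ r' _
    rw [Real.rpow_one]
    exact lipschitz_diag τ _ (fun i => Finset.single_le_sum (f := fun i => |τ i|)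
      (fun i _ => abs_nonneg _) (Finset.mem_univ i))
      (Finset.sum_nonneg fun i _ => abs_nonneg _) r r'
  · intro t ht
    obtain ⟨S, hS1, hS2⟩ := hτ t ht
    refine measure_mono_null ?_ (coord_null (hd t ht) S hS1)
    rintro _ ⟨r, -, rfl⟩ i hi
    change -(τ i * r i) + t * r i = 0
    rw [hS2 i hi]
    ring

/-- the closed unit cube of common differences -/
def cube (n : ℕ) : Set (E n) := {r | ∀ i, r i ∈ Set.Icc (0 : ℝ) 1}

theorem norm_cube {n : ℕ} {r r' : E n} (hr : r ∈ cube n) (hr' : r' ∈ cube n) :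
    ‖r - r'‖ ≤ n := by
  have h := norm_le_sup (r - r').ofLp
  have h1 : ‖(r - r').ofLp‖ ≤ 1 := by
    rw [pi_norm_le_iff_of_nonneg zero_le_one]
    intro i
    rw [Real.norm_eq_abs, abs_le]
    have h2 := hr i
    have h3 := hr' i
    have h4 : (r - r').ofLp i = r i - r' i := rfl
    rw [h4]
    constructor <;> linarith [h2.1, h2.2, h3.1, h3.2]
  calc ‖r - r'‖ = ‖(WithLp.toLp 2 (r - r').ofLp : E n)‖ := rfl
    _ ≤ n * ‖(r - r').ofLp‖ := h
    _ ≤ n * 1 := by gcongr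
    _ = n := mul_one _

/-- `B` contains a `k`-term progression with every common difference `r` in `[0,1]^n`, and the first
term can be chosen as a function of `r` of class `C^α`. -/
def HoelderProgressions {n : ℕ} (α : ℝ) (k : ℕ) (B : Set (E n)) : Prop :=
  ∃ a : E n → E n, (∃ C : ℝ, ∀ r ∈ cube n, ∀ r' ∈ cube n, ‖a r - a r'‖ ≤ C * ‖r - r'‖ ^ α) ∧
    ∀ r ∈ cube n, ∀ j : ℕ, j < k → a r + (j : ℝ) • r ∈ B

theorem upper {n k : ℕ} (hk : 1 ≤ k) {α : ℝ} (hα1 : α ≤ 1) :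
    ∃ B : Set (E n), Bornology.IsBounded B ∧ HoelderProgressions α k B ∧
      upperMinkowski B ≤ (((n - n / k : ℕ) : ℝ) : EReal) := by
  classical
  set T : Finset ℝ := (Finset.range k).map ⟨fun j : ℕ => (j : ℝ), Nat.cast_injective⟩ with hT
  have hsum : ∑ t ∈ T, (n - (n - n / k)) ≤ n := by
    rw [Finset.sum_const, hT, Finset.card_map, Finset.card_range, smul_eq_mul]
    have h1 : n - (n - n / k) = n / k := by
      have := Nat.div_le_self n k
      exact Nat.sub_sub_self this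
    rw [h1]
    exact Nat.mul_div_le n k
  obtain ⟨τ, hτ1, hτ⟩ := exists_tau (n := n) T (fun _ => n - n / k) hsum
  choose! S hS1 hS2 using hτ
  have hmemT : ∀ j < k, (j : ℝ) ∈ T := fun j hj => Finset.mem_map.2 ⟨j, Finset.mem_range.2 hj, rfl⟩
  have hτl : ∀ i, ∃ l : ℕ, l ≤ k ∧ τ i = l := by
    intro i
    rcases hτ1 i with h | h
    · obtain ⟨l, hl, hl'⟩ := Finset.mem_map.1 h
      exact ⟨l, (Finset.mem_range.1 hl).le, hl'.symm⟩
    · exact ⟨0, Nat.zero_le _, by rw [h, Nat.cast_zero]⟩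
  refine ⟨Ex k (fun j => S (j : ℝ)), Pool.Agent.TH539.AlgProg.Ex.bounded _,
    ⟨fun r => WithLp.toLp 2 (fun i => - (τ i * r i)), ⟨k * (n : ℝ) ^ (1 - α), ?_⟩, ?_⟩, ?_⟩
  · intro r hr r' hr'
    have h1 := lipschitz_diag τ (k : ℝ) (fun i => by
      obtain ⟨l, hl, hl'⟩ := hτl i
      rw [hl', abs_of_nonneg (Nat.cast_nonneg l)]
      exact_mod_cast hl) (Nat.cast_nonneg k) r r'
    refine h1.trans ?_
    rcases (norm_nonneg (r - r')).eq_or_lt with h0 | h0
    · rw [← h0, mul_zero]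
      exact mul_nonneg (mul_nonneg (Nat.cast_nonneg k) (Real.rpow_nonneg (Nat.cast_nonneg n) _))
        (Real.rpow_nonneg le_rfl _)
    · have h2 : ‖r - r'‖ = ‖r - r'‖ ^ (1 - α) * ‖r - r'‖ ^ α := by
        rw [← Real.rpow_add h0, sub_add_cancel, Real.rpow_one]
      have h3 : ‖r - r'‖ ^ (1 - α) ≤ (n : ℝ) ^ (1 - α) :=
        Real.rpow_le_rpow h0.le (norm_cube hr hr') (by linarith)
      calc (k : ℝ) * ‖r - r'‖ = k * (‖r - r'‖ ^ (1 - α) * ‖r - r'‖ ^ α) := by rw [← h2]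
        _ ≤ k * ((n : ℝ) ^ (1 - α) * ‖r - r'‖ ^ α) := by gcongr
        _ = k * (n : ℝ) ^ (1 - α) * ‖r - r'‖ ^ α := by ring
  · intro r hr j hj
    refine ⟨j, hj, ?_, ?_⟩
    · intro i hi
      change - (τ i * r i) + (j : ℝ) * r i = 0
      rw [hS2 _ (hmemT j hj) i hi]
      ring
    · intro i
      change |- (τ i * r i) + (j : ℝ) * r i| ≤ k
      obtain ⟨l, hl, hτl⟩ := hτl i
      rw [hτl]
      have h0 := (hr i).1
      have h1 := (hr i).2
      have h2 : (l : ℝ) ≤ k := by exact_mod_cast hl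
      have h3 : (j : ℝ) ≤ k := by exact_mod_cast hj.le
      have h4 : (0 : ℝ) ≤ l := Nat.cast_nonneg _
      have h5 : (0 : ℝ) ≤ j := Nat.cast_nonneg _
      rw [abs_le]
      constructor
      · nlinarith
      · nlinarith
  · have hcard : ∀ j < k, n - (S (j : ℝ)).card = n - n / k := by
      intro j hj
      rw [hS1 _ (hmemT j hj)]
      have := Nat.div_le_self n k
      rw [Nat.sub_sub_self this]
    refine Pool.Agent.TH539.AlgProg.dim_le (C := k * (2 * k * (n + 1) + 3) ^ (n - n / k)) ?_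
      (Nat.cast_nonneg _) ?_
    · have h1 : (1 : ℝ) ≤ k := by exact_mod_cast hk
      have h2 : (1 : ℝ) ≤ (2 * k * (n + 1) + 3) ^ (n - n / k) := by
        apply one_le_pow₀
        have : (0 : ℝ) ≤ 2 * k * (n + 1) := by positivity
        linarith
      nlinarith
    · intro δ hδ hδ1
      exact Pool.Agent.TH539.AlgProg.Ex.count hk _ hcard hδ hδ1

theorem open_cube (n : ℕ) : IsOpen {r : E n | ∀ i, r i ∈ Set.Ioo (0 : ℝ) 1} := by
  have : {r : E n | ∀ i, r i ∈ Set.Ioo (0 : ℝ) 1} = ⋂ i, {r : E n | r i ∈ Set.Ioo (0 : ℝ) 1} := by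
    ext r; simp
  rw [this]
  refine isOpen_iInter_of_finite fun i => ?_
  exact isOpen_Ioo.preimage (PiLp.continuous_apply 2 _ i)

theorem lower {n k : ℕ} (hn : 1 ≤ n) (hk : 1 ≤ k) {α : ℝ} (hα : 1 - 1 / (n : ℝ) < α)
    {B : Set (E n)} (hB : HoelderProgressions α k B) : μH[((n - n / k : ℕ) : ℝ)] B ≠ 0 := by
  obtain ⟨a, ⟨C, hC⟩, ha⟩ := hB
  have hsub : ∀ r : E n, (∀ i, r i ∈ Set.Ioo (0 : ℝ) 1) → r ∈ cube n :=
    fun r hr i => ⟨(hr i).1.le, (hr i).2.le⟩
  exact prog_reg hn hk (open_cube n)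
    ⟨WithLp.toLp 2 (fun _ => 1 / 2), fun i => by
      constructor
      · change (0 : ℝ) < 1 / 2; norm_num
      · change (1 / 2 : ℝ) < 1; norm_num⟩
    (Or.inl ⟨α, C, hα, fun r hr r' hr' => hC r (hsub r hr) r' (hsub r' hr')⟩)
    (fun r hr j hj => ha r (hsub r hr) j hj)

theorem natCast_le_dimH {n q : ℕ} {B : Set (E n)} (h : μH[(q : ℝ)] B ≠ 0) :
    (q : ℝ≥0∞) ≤ dimH B := by
  have h2 := le_dimH_of_hausdorffMeasure_ne_zero (s := B) (d := (q : ℝ≥0)) (by simpa using h)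
  simpa using h2

/-- the Hausdorff dimension is at most the upper Minkowski dimension -/
theorem dimH_le {n q : ℕ} {B : Set (E n)} (hBb : Bornology.IsBounded B)
    (h : upperMinkowski B ≤ ((q : ℝ) : EReal)) : dimH B ≤ q := by
  by_contra hcon
  rw [not_le] at hcon
  obtain ⟨s, hs1, hs2⟩ := ENNReal.lt_iff_exists_nnreal_btwn.1 hcon
  have h1 : μH[(s : ℝ)] B = ⊤ := hausdorffMeasure_of_lt_dimH hs2
  have h2 := le_upperMinkowski hBb s.coe_nonneg (by rw [h1]; exact ENNReal.top_ne_zero)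
  have h3 : ((s : ℝ) : EReal) ≤ ((q : ℝ) : EReal) := h2.trans h
  have h4 : (s : ℝ) ≤ q := by exact_mod_cast h3
  have h5 : (q : ℝ≥0) < s := by exact_mod_cast hs1
  have h6 : ((q : ℝ≥0) : ℝ) < s := by exact_mod_cast h5
  rw [NNReal.coe_natCast] at h6
  linarith

end Pool.Agent.R462.HP
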