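import Pool.Agent.R462.HP.Core
import Pool.Agent.W769.Kak.Wrap

set_option autoImplicit false

/-!
# Dimensions of the slices: Hölder and Sobolev classes
-/

open MeasureTheory Set Finset Topology Filter

namespace Pool.Agent.R462.HP

open Pool.Agent.W769.Kak

variable {d : ℕ}

theorem sum_hoelder (hd : 0 < d) {a : (Fin d → ℝ) → Fin d → ℝ}
    (v0 : Fin d → ℝ) {R : ℝ} (hR : 0 < R) {C α : ℝ} (hα0 : 0 < α) (hα : (d : ℝ) - 1 < α * d)
    (hH : ∀ v ∈ Metric.closedBall v0 R, ∀ w ∈ Metric.closedBall v0 R,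
      ‖a v - a w‖ ≤ C * ‖v - w‖ ^ α) :
    ∑' k, ∫⁻ v in Metric.closedBall v0 (R / 2),
      ENNReal.ofReal ((sc (R / 2) k ^ (2 * d - 1))⁻¹) *
      ∫⁻ y in Metric.closedBall (0 : Fin d → ℝ) (sc (R / 2) k), ‖a (v - y) - a v‖ₑ ^ d ≠ ⊤ := by
  have hC0 : 0 ≤ |C| := abs_nonneg C
  set γ : ℝ := α * d - (d - 1) with hγ
  have hγ0 : 0 < γ := by rw [hγ]; linarith
  have hbound : ∀ k, ∫⁻ v in Metric.closedBall v0 (R / 2),
      ENNReal.ofReal ((sc (R / 2) k ^ (2 * d - 1))⁻¹) *
      ∫⁻ y in Metric.closedBall (0 : Fin d → ℝ) (sc (R / 2) k), ‖a (v - y) - a v‖ₑ ^ d ≤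
      ENNReal.ofReal ((2 * |C|) ^ d * (R / 2) ^ γ * ((1 / 2 : ℝ) ^ γ) ^ k) *
        volume (Metric.closedBall v0 (R / 2)) := by
    intro k
    have hρ := sc_pos (show 0 < R / 2 by positivity) k
    have hρR : sc (R / 2) k ≤ R / 2 := by
      have := sc_anti (show 0 < R / 2 by positivity) (Nat.zero_le k)
      simpa [sc] using this
    rw [← setLIntegral_const]
    refine setLIntegral_mono' Metric.isClosed_closedBall.measurableSet fun v hv => ?_
    have h1 : ∫⁻ y in Metric.closedBall (0 : Fin d → ℝ) (sc (R / 2) k), ‖a (v - y) - a v‖ₑ ^ d ≤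
        ENNReal.ofReal ((|C| * sc (R / 2) k ^ α) ^ d) *
          volume (Metric.closedBall (0 : Fin d → ℝ) (sc (R / 2) k)) := by
      rw [← setLIntegral_const]
      refine setLIntegral_mono' Metric.isClosed_closedBall.measurableSet fun y hy => ?_
      rw [ENNReal.ofReal_pow (by positivity), ← ofReal_norm]
      gcongr
      rw [Metric.mem_closedBall] at hv
      rw [Metric.mem_closedBall, dist_zero_right] at hy
      have h2 : v - y ∈ Metric.closedBall v0 R := by
        rw [Metric.mem_closedBall]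
        calc dist (v - y) v0 ≤ dist (v - y) v + dist v v0 := dist_triangle _ _ _
          _ ≤ R / 2 + R / 2 := by
            gcongr
            rw [dist_eq_norm]; simp only [sub_sub_cancel_left, norm_neg]
            exact hy.trans hρR
          _ = R := by ring
      have h3 : v ∈ Metric.closedBall v0 R := by
        rw [Metric.mem_closedBall]; linarith
      have h4 := hH _ h2 _ h3
      rw [sub_sub_cancel_left, norm_neg] at h4
      calc ‖a (v - y) - a v‖ ≤ C * ‖y‖ ^ α := h4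
        _ ≤ |C| * sc (R / 2) k ^ α := by
          gcongr
          exact le_abs_self C
    refine (mul_le_mul_right h1 _).trans ?_
    rw [Real.volume_pi_closedBall _ hρ.le, Fintype.card_fin, ← ENNReal.ofReal_mul (by positivity),
      ← ENNReal.ofReal_mul (by positivity)]
    apply ENNReal.ofReal_le_ofReal
    apply le_of_eq
    have h5 : sc (R / 2) k ^ γ = (R / 2) ^ γ * ((1 / 2 : ℝ) ^ γ) ^ k := by
      unfold sc
      rw [Real.mul_rpow (by positivity) (by positivity), ← Real.rpow_natCast, ← Real.rpow_natCast,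
        ← Real.rpow_mul (by norm_num), ← Real.rpow_mul (by norm_num), mul_comm γ]
    rw [mul_assoc ((2 * |C|) ^ d), ← h5]
    have h6 : sc (R / 2) k ^ γ = (sc (R / 2) k ^ (2 * d - 1))⁻¹ *
        ((sc (R / 2) k ^ α) ^ d * sc (R / 2) k ^ d) := by
      rw [← Real.rpow_natCast, ← Real.rpow_neg hρ.le, ← Real.rpow_natCast (_ ^ α),
        ← Real.rpow_mul hρ.le, ← Real.rpow_natCast (sc (R / 2) k) d, ← Real.rpow_add hρ,
        ← Real.rpow_add hρ]
      congr 1
      rw [Nat.cast_sub (by omega)]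
      push_cast
      rw [hγ]; ring
    rw [h6, mul_pow, mul_pow, mul_pow]
    ring
  refine ne_top_of_le_ne_top ?_ (ENNReal.tsum_le_tsum hbound)
  rw [ENNReal.tsum_mul_right]
  refine ENNReal.mul_ne_top ?_ (isCompact_closedBall _ _).measure_lt_top.ne
  apply Summable.tsum_ofReal_ne_top
  apply Summable.mul_left
  apply summable_geometric_of_lt_one (by positivity)
  exact Real.rpow_lt_one (by norm_num) (by norm_num) hγ0

theorem sum_sobolev (hd : 0 < d) {a : (Fin d → ℝ) → Fin d → ℝ} (ha : Continuous a)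
    (v0 : Fin d → ℝ) {R : ℝ} (hR : 0 < R)
    (hW : ∫⁻ v in Metric.closedBall v0 R, ∫⁻ w in Metric.closedBall v0 R,
      ‖a v - a w‖ₑ ^ d / ‖v - w‖ₑ ^ (2 * d - 1) ≠ ⊤) :
    ∑' k, ∫⁻ v in Metric.closedBall v0 (R / 2),
      ENNReal.ofReal ((sc (R / 2) k ^ (2 * d - 1))⁻¹) *
      ∫⁻ y in Metric.closedBall (0 : Fin d → ℝ) (sc (R / 2) k), ‖a (v - y) - a v‖ₑ ^ d ≠ ⊤ := by
  refine ne_top_of_le_ne_top ?_ (pieceC ha (by omega) (by positivity) d _)
  refine ne_top_of_le_ne_top ?_ (pieceD (Q := Metric.closedBall v0 R) (2 * d - 1) d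
    Metric.isClosed_closedBall.measurableSet Metric.isClosed_closedBall.measurableSet ?_)
  · refine ENNReal.mul_ne_top (by norm_num) ?_
    refine ne_top_of_le_ne_top hW ?_
    apply lintegral_mono_set
    exact Metric.closedBall_subset_closedBall (by linarith)
  · intro v hv w hw
    rw [Metric.mem_closedBall] at hv
    rw [Metric.mem_closedBall]
    calc dist w v0 ≤ dist w v + dist v v0 := dist_triangle _ _ _
      _ ≤ R / 2 + R / 2 := by
        gcongr
        rw [dist_comm, dist_eq_norm]; exact hw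
      _ = R := by ring

/-- the regularity classes, on a cube -/
def RegOn (a : (Fin d → ℝ) → Fin d → ℝ) (v0 : Fin d → ℝ) (R : ℝ) : Prop :=
  (∃ C α : ℝ, 0 < α ∧ (d : ℝ) - 1 < α * d ∧ ∀ v ∈ Metric.closedBall v0 R,
      ∀ w ∈ Metric.closedBall v0 R, ‖a v - a w‖ ≤ C * ‖v - w‖ ^ α) ∨
    ∫⁻ v in Metric.closedBall v0 R, ∫⁻ w in Metric.closedBall v0 R,
      ‖a v - a w‖ₑ ^ d / ‖v - w‖ₑ ^ (2 * d - 1) ≠ ⊤

theorem slices_reg (hd : 0 < d) {a : (Fin d → ℝ) → Fin d → ℝ}
    (v0 : Fin d → ℝ) {R : ℝ} (hR : 0 < R) (ha : ContinuousOn a (Metric.closedBall v0 R))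
    (hreg : RegOn a v0 R)
    {N : ℕ} (t : Fin N → ℝ) (ht : Function.Injective t) (m : Fin N → ℕ) (hmd : ∀ i, m i ≤ d)
    (hm : d < ∑ i, m i) :
    ∃ i, ∃ S : Finset (Fin d), d < S.card + m i ∧
      volume (lim a (t i) S '' Metric.closedBall v0 R) ≠ 0 := by
  have hac : Continuous (fun v => a (clamp v0 R v)) :=
    ha.comp_continuous (continuous_clamp v0 R) (clamp_mem v0 hR.le)
  have hsum : ∑' k, ∫⁻ v in Metric.closedBall v0 (R / 2),
      ENNReal.ofReal ((sc (R / 2) k ^ (2 * d - 1))⁻¹) *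
      ∫⁻ y in Metric.closedBall (0 : Fin d → ℝ) (sc (R / 2) k),
        ‖a (clamp v0 R (v - y)) - a (clamp v0 R v)‖ₑ ^ d ≠ ⊤ := by
    rcases hreg with ⟨C, α, hα0, hα, hH⟩ | hW
    · refine sum_hoelder (a := fun v => a (clamp v0 R v)) hd v0 hR hα0 hα (C := C) ?_
      intro v hv w hw
      simp only [clamp_eq v0 hR.le hv, clamp_eq v0 hR.le hw]
      exact hH v hv w hw
    · refine sum_sobolev (a := fun v => a (clamp v0 R v)) hd hac v0 hR ?_
      rw [setLIntegral_congr_fun Metric.isClosed_closedBall.measurableSet (g := fun v =>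
        ∫⁻ w in Metric.closedBall v0 R, ‖a v - a w‖ₑ ^ d / ‖v - w‖ₑ ^ (2 * d - 1))]
      · exact hW
      · intro v hv
        simp only
        apply setLIntegral_congr_fun Metric.isClosed_closedBall.measurableSet
        intro w hw
        simp only [clamp_eq v0 hR.le hv, clamp_eq v0 hR.le hw]
  obtain ⟨i, S, h1, h2⟩ := slices_mult (a := fun v => a (clamp v0 R v)) hd hac v0 hR hsum t ht m
    hmd hm
  refine ⟨i, S, h1, ?_⟩
  rwa [Set.image_congr (g := lim a (t i) S)] at h2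
  intro v hv
  funext j
  simp only [lim, clamp_eq v0 hR.le hv]

end Pool.Agent.R462.HP
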